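import Pool.Agent.W533.LP.Stm2

/-!
# Project LP, subtask LP-G4: path probabilities
-/

set_option autoImplicit false

namespace Pool.Agent.W143.LP

open MeasureTheory ProbabilityTheory Pool.Agent.W533.LP
open scoped ENNReal

/-! ### measures -/

theorem lint_geo (q : ℝ) (f : ℕ → ℝ≥0∞) :
    ∫⁻ k, f k ∂(geoM q) = ∑' k : ℕ, ENNReal.ofReal ((1 - q) * q ^ k) * f k := by
  unfold geoM
  rw [lintegral_sum_measure]
  refine tsum_congr fun k => ?_
  rw [lintegral_smul_measure, lintegral_dirac, smul_eq_mul]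

theorem geo_prob {q : ℝ} (h0 : 0 < q) (h1 : q < 1) : IsProbabilityMeasure (geoM q) := by
  refine ⟨?_⟩
  have h3 : (1 - q) ≠ 0 := by linarith
  have h2 := lint_geo q (fun _ => 1)
  rw [lintegral_const, one_mul] at h2
  rw [h2]
  simp only [mul_one]
  rw [← ENNReal.ofReal_tsum_of_nonneg, tsum_mul_left, tsum_geometric_of_lt_one h0.le h1,
    mul_inv_cancel₀ h3, ENNReal.ofReal_one]
  · intro k
    have : 0 < 1 - q := by linarith
    positivity
  · exact (summable_geometric_of_lt_one h0.le h1).mul_left _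

/-- law of the second hidden variable -/
noncomputable def nu (q : ℝ) (s : ℕ) : Measure ℕ := if s = 0 then geoM q else Measure.dirac 0

theorem nu_prob {q : ℝ} (h0 : 0 < q) (h1 : q < 1) (s : ℕ) : IsProbabilityMeasure (nu q s) := by
  unfold nu
  split_ifs
  · exact geo_prob h0 h1
  · infer_instance

/-- law of the coin -/
noncomputable def coin (ρ : ℝ) : Measure Bool :=
  ENNReal.ofReal ρ • Measure.dirac true + ENNReal.ofReal (1 - ρ) • Measure.dirac false

theorem lint_coin (ρ : ℝ) (f : Bool → ℝ≥0∞) : ∫⁻ b, f b ∂(coin ρ) =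
    ENNReal.ofReal ρ * f true + ENNReal.ofReal (1 - ρ) * f false := by
  unfold coin
  rw [lintegral_add_measure, lintegral_smul_measure, lintegral_smul_measure, lintegral_dirac,
    lintegral_dirac, smul_eq_mul, smul_eq_mul]

theorem coin_prob {ρ : ℝ} (h0 : 0 < ρ) (h1 : ρ < 1) : IsProbabilityMeasure (coin ρ) := by
  refine ⟨?_⟩
  have h2 := lint_coin ρ (fun _ => 1)
  rw [lintegral_const, one_mul] at h2
  rw [h2, mul_one, mul_one, ← ENNReal.ofReal_add h0.le (by linarith)]
  simp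

theorem hM_eq (q ρ : ℝ) (s : ℕ) : hM q ρ s = (coin ρ).prod (nu q s) := rfl

theorem hM_prob {q ρ : ℝ} {s : ℕ} (h : Par q ρ s) : IsProbabilityMeasure (hM q ρ s) := by
  rw [hM_eq]
  have := coin_prob h.2.2.1 h.2.2.2.1
  have := nu_prob h.1 h.2.1 s
  infer_instance

theorem lint_hM {q ρ : ℝ} {s : ℕ} (h : Par q ρ s) (F : Bool × ℕ → ℝ≥0∞) :
    ∫⁻ x, F x ∂(hM q ρ s) = ENNReal.ofReal ρ * ∫⁻ l, F (true, l) ∂(nu q s) +
      ENNReal.ofReal (1 - ρ) * ∫⁻ l, F (false, l) ∂(nu q s) := by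
  rw [hM_eq]
  have := coin_prob h.2.2.1 h.2.2.2.1
  have := nu_prob h.1 h.2.1 s
  rw [lintegral_prod _ (Measurable.of_discrete).aemeasurable, lint_coin]

/-- resampling one coordinate -/
theorem resample {ι : Type} [Fintype ι] [DecidableEq ι] {X : Type} [MeasurableSpace X]
    [DiscreteMeasurableSpace (ι → X)] (ν : Measure X) [IsProbabilityMeasure ν] (v : ι)
    (F : (ι → X) → ℝ≥0∞) :
    ∫⁻ h, F h ∂(Measure.pi fun _ : ι => ν) =
      ∫⁻ h, ∫⁻ x, F (Function.update h v x) ∂ν ∂(Measure.pi fun _ : ι => ν) := by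
  refine lintegral_eq_of_lmarginal_eq {v} Measurable.of_discrete Measurable.of_discrete ?_
  rw [lmarginal_singleton, lmarginal_singleton]
  funext h
  simp only [Function.update_idem]
  rw [lintegral_const, measure_univ, mul_one]

/-- Cauchy-Schwarz for functions with values in `[0,1]` -/
theorem sq_int_le {α : Type} [MeasurableSpace α] (ν : Measure α) [IsProbabilityMeasure ν]
    (f : α → ℝ) (hf : Measurable f) (h0 : ∀ x, 0 ≤ f x) (h1 : ∀ x, f x ≤ 1) :
    (∫⁻ x, ENNReal.ofReal (f x) ∂ν) ^ 2 ≤ ∫⁻ x, ENNReal.ofReal (f x ^ 2) ∂ν := by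
  have hi : Integrable f ν := by
    refine Integrable.of_bound hf.aestronglyMeasurable 1 (Filter.Eventually.of_forall fun x => ?_)
    rw [Real.norm_eq_abs, abs_of_nonneg (h0 x)]
    exact h1 x
  have hi2 : Integrable (fun x => f x ^ 2) ν := by
    refine Integrable.of_bound (hf.pow_const 2).aestronglyMeasurable 1
      (Filter.Eventually.of_forall fun x => ?_)
    rw [Real.norm_eq_abs, abs_of_nonneg (sq_nonneg _)]
    exact pow_le_one₀ (h0 x) (h1 x)
  rw [← ofReal_integral_eq_lintegral_ofReal hi (Filter.Eventually.of_forall h0),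
    ← ofReal_integral_eq_lintegral_ofReal hi2 (Filter.Eventually.of_forall fun x => sq_nonneg _),
    ← ENNReal.ofReal_pow (integral_nonneg h0)]
  apply ENNReal.ofReal_le_ofReal
  have h2 : 0 ≤ ∫ x, (f x - ∫ y, f y ∂ν) ^ 2 ∂ν := integral_nonneg fun x => sq_nonneg _
  obtain ⟨m, hm⟩ : ∃ m : ℝ, m = ∫ y, f y ∂ν := ⟨_, rfl⟩
  rw [← hm] at h2 ⊢
  have h3 : ∫ x, (f x - m) ^ 2 ∂ν = (∫ x, f x ^ 2 ∂ν) - m ^ 2 := by
    have hi3 : Integrable (fun x => f x ^ 2 - 2 * m * f x) ν := hi2.sub (hi.const_mul (2 * m))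
    have e : (fun x => (f x - m) ^ 2) = fun x => (f x ^ 2 - 2 * m * f x) + m ^ 2 := by
      funext x; ring
    rw [e, integral_add hi3 (integrable_const _),
      integral_sub hi2 (hi.const_mul _), integral_const_mul, ← hm, integral_const]
    simp
    ring
  rw [h3] at h2
  linarith

/-! ### weights -/

variable {n : ℕ}

theorem sl_update (W : V n → ℕ) (v : V n) (k l : ℕ) : sl (Function.update W v k) v l = sl W v l := by
  unfold sl
  rw [Function.update_idem, Function.update_idem]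

/-- the value of the weight at a site -/
def wv (s k : ℕ) (x : Bool × ℕ) : ℕ := if x.1 then k + s else x.2

theorem Wt_update_h (s : ℕ) (y : V n → ℕ) (h : V n → Bool × ℕ) (v : V n) (x : Bool × ℕ) :
    Wt s y (Function.update h v x) = Function.update (Wt s y h) v (wv s (y v) x) := by
  funext u
  by_cases hu : u = v
  · subst hu
    rw [Function.update_self]
    unfold Wt wv
    rw [Function.update_self]
  · rw [Function.update_of_ne hu]
    unfold Wt
    rw [Function.update_of_ne hu]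

theorem Wt_update_y (s : ℕ) (y : V n → ℕ) (h : V n → Bool × ℕ) (v : V n) (k : ℕ) :
    Wt s (Function.update y v k) h = Function.update (Wt s y h) v (wv s k (h v)) := by
  funext u
  by_cases hu : u = v
  · subst hu
    rw [Function.update_self]
    unfold Wt wv
    rw [Function.update_self]
  · rw [Function.update_of_ne hu]
    unfold Wt
    rw [Function.update_of_ne hu]

theorem pp_update (q ρ : ℝ) (s : ℕ) (y : V n → ℕ) (v : V n) (k l : ℕ) :
    pp q ρ s (Function.update y v k) v l = pp q ρ s y v l := by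
  unfold pp
  congr 1
  funext h
  rw [Wt_update_y, sl_update]

section bounds

variable (hD : DSl)
include hD

theorem sl_nonneg (W : V n → ℕ) (v : V n) (l : ℕ) : 0 ≤ sl W v l := by
  rcases (hD n W v l).1 with h | h <;> rw [h]
  exact zero_le_one

theorem sl_le (W : V n → ℕ) (v : V n) (l : ℕ) : sl W v l ≤ 1 := by
  rcases (hD n W v l).1 with h | h <;> rw [h]
  exact zero_le_one

end bounds

section main

variable {q ρ : ℝ} {s : ℕ} (hD : DSl) (hP : Par q ρ s)
  (hprob : IsProbabilityMeasure (muH q ρ s n))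

include hD hprob in
theorem ofReal_pp (y : V n → ℕ) (v : V n) (l : ℕ) :
    ENNReal.ofReal (pp q ρ s y v l) =
      ∫⁻ h, ENNReal.ofReal (sl (Wt s y h) v l) ∂(muH q ρ s n) := by
  unfold pp
  refine ofReal_integral_eq_lintegral_ofReal ?_ (Filter.Eventually.of_forall fun h =>
    sl_nonneg hD _ v l)
  refine Integrable.of_bound Measurable.of_discrete.aestronglyMeasurable 1
    (Filter.Eventually.of_forall fun h => ?_)
  rw [Real.norm_eq_abs, abs_of_nonneg (sl_nonneg hD _ v l)]
  exact sl_le hD _ v l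

include hD in
theorem pp_nonneg (y : V n → ℕ) (v : V n) (l : ℕ) : 0 ≤ pp q ρ s y v l :=
  integral_nonneg fun h => sl_nonneg hD _ v l

include hD hprob in
theorem pp_le (y : V n → ℕ) (v : V n) (l : ℕ) : pp q ρ s y v l ≤ 1 := by
  unfold pp
  have h1 : ∫ h, sl (Wt s y h) v l ∂(muH q ρ s n) ≤ ∫ _h, (1 : ℝ) ∂(muH q ρ s n) := by
    refine integral_mono_of_nonneg (Filter.Eventually.of_forall fun h => sl_nonneg hD _ v l)
      (integrable_const _) (Filter.Eventually.of_forall fun h => sl_le hD _ v l)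
  rw [integral_const, smul_eq_mul, mul_one] at h1
  refine h1.trans ?_
  exact measureReal_le_one

include hD hP hprob in
/-- first part -/
theorem part_a (Γ : (V n → ℕ) → ℕ → V n) (hΓ : Geod Γ) (y : V n → ℕ) (v : V n)
    (hy : 1 ≤ y v + s) : ρ * pp q ρ s y v (y v + s - 1) ≤ Pp q ρ s Γ y v := by
  have := hM_prob hP
  have := hprob
  have h1 : ENNReal.ofReal (ρ * pp q ρ s y v (y v + s - 1)) ≤
      (muH q ρ s n) {h | Γ (Wt s y h) (lev v) = v} := by
    rw [ENNReal.ofReal_mul hP.2.2.1.le, ofReal_pp hD hprob]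
    have h2 : ∫⁻ h, (if (h v).1 = true then ENNReal.ofReal (sl (Wt s y h) v (y v + s - 1)) else 0)
        ∂(muH q ρ s n) = ENNReal.ofReal ρ * ∫⁻ h, ENNReal.ofReal (sl (Wt s y h) v (y v + s - 1))
        ∂(muH q ρ s n) := by
      unfold muH
      rw [resample (hM q ρ s) v, ← lintegral_const_mul _ Measurable.of_discrete]
      refine lintegral_congr fun h => ?_
      have := nu_prob hP.1 hP.2.1 s
      simp only [Function.update_self, Wt_update_h, sl_update]
      rw [lint_hM hP]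
      simp
    rw [← h2, ← lintegral_indicator_one MeasurableSet.of_discrete]
    refine lintegral_mono fun h => ?_
    by_cases hh : (h v).1 = true
    · rw [if_pos hh]
      rcases (hD n (Wt s y h) v (y v + s - 1)).1 with h3 | h3
      · rw [h3]; simp
      · have h4 : Wt s y h v = y v + s := by
          unfold Wt
          rw [if_pos hh]
        have h5 : h ∈ {h | Γ (Wt s y h) (lev v) = v} := by
          refine hΓ.nec _ v (by rw [h4]; exact hy) ?_
          rw [h4]
          exact h3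
        rw [Set.indicator_of_mem h5, h3]
        simp
    · rw [if_neg hh]
      exact zero_le
  unfold Pp
  rw [Measure.real]
  rw [← ENNReal.toReal_ofReal (mul_nonneg hP.2.2.1.le (pp_nonneg hD y v (y v + s - 1)))]
  exact ENNReal.toReal_mono (measure_ne_top _ _) h1

include hD hP hprob in
/-- second part, pointwise -/
theorem part_c (Γ : (V n → ℕ) → ℕ → V n) (hΓ : Geod Γ) (y : V n → ℕ) (v : V n) :
    ENNReal.ofReal (Pp q ρ s Γ y v ^ 2) ≤
      ENNReal.ofReal ρ * ENNReal.ofReal (pp q ρ s y v (y v + s) ^ 2) +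
      ENNReal.ofReal (1 - ρ) * ∫⁻ l, ENNReal.ofReal (pp q ρ s y v l ^ 2) ∂(nu q s) := by
  have := hM_prob hP
  have := hprob
  have := nu_prob hP.1 hP.2.1 s
  have h1 : (muH q ρ s n) {h | Γ (Wt s y h) (lev v) = v} ≤
      ∫⁻ x, ENNReal.ofReal (pp q ρ s y v (wv s (y v) x)) ∂(hM q ρ s) := by
    have h2 : ∫⁻ x, ENNReal.ofReal (pp q ρ s y v (wv s (y v) x)) ∂(hM q ρ s) =
        ∫⁻ h, ENNReal.ofReal (sl (Wt s y h) v (Wt s y h v)) ∂(muH q ρ s n) := by
      unfold muH
      rw [resample (hM q ρ s) v]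
      simp only [Wt_update_h, sl_update, Function.update_self]
      rw [lintegral_lintegral_swap (Measurable.of_discrete).aemeasurable]
      refine lintegral_congr fun x => ?_
      rw [ofReal_pp hD hprob]
      rfl
    rw [h2, ← lintegral_indicator_one MeasurableSet.of_discrete]
    refine lintegral_mono fun h => ?_
    by_cases hh : h ∈ {h | Γ (Wt s y h) (lev v) = v}
    · rw [Set.indicator_of_mem hh, hΓ.opt _ v hh]
      simp
    · rw [Set.indicator_of_notMem hh]
      exact zero_le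
  have h3 : ENNReal.ofReal (Pp q ρ s Γ y v) = (muH q ρ s n) {h | Γ (Wt s y h) (lev v) = v} := by
    unfold Pp
    rw [Measure.real, ENNReal.ofReal_toReal (measure_ne_top _ _)]
  have h4 : 0 ≤ Pp q ρ s Γ y v := measureReal_nonneg
  rw [ENNReal.ofReal_pow h4, h3]
  have h5 : ((muH q ρ s n) {h | Γ (Wt s y h) (lev v) = v}) ^ 2 ≤
      ∫⁻ x, ENNReal.ofReal (pp q ρ s y v (wv s (y v) x) ^ 2) ∂(hM q ρ s) :=
    (pow_le_pow_left' h1 2).trans (sq_int_le _ _ Measurable.of_discrete
      (fun x => pp_nonneg hD y v _) (fun x => pp_le hD hprob y v _))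
  refine h5.trans (le_of_eq ?_)
  rw [lint_hM hP]
  simp [wv]

end main

/-- shift of a geometric sum -/
theorem geo_shift {q : ℝ} (h0 : 0 < q) (h1 : q < 1) (f g : ℕ → ℝ≥0∞) (h : ∀ k, f k ≤ g (k + 1)) :
    ∫⁻ k, f k ∂(geoM q) ≤ ENNReal.ofReal q⁻¹ * ∫⁻ k, g k ∂(geoM q) := by
  rw [lint_geo, lint_geo, ← ENNReal.tsum_mul_left]
  have h2 : ∀ k : ℕ, ENNReal.ofReal ((1 - q) * q ^ k) * f k ≤
      ENNReal.ofReal q⁻¹ * (ENNReal.ofReal ((1 - q) * q ^ (k + 1)) * g (k + 1)) := by
    intro k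
    rw [← mul_assoc, ← ENNReal.ofReal_mul (by positivity)]
    have e : q⁻¹ * ((1 - q) * q ^ (k + 1)) = (1 - q) * q ^ k := by
      rw [pow_succ]; field_simp
    rw [e]
    gcongr
    exact h k
  refine (ENNReal.tsum_le_tsum h2).trans ?_
  exact ENNReal.tsum_comp_le_tsum_of_injective (add_left_injective 1)
    (fun k => ENNReal.ofReal q⁻¹ * (ENNReal.ofReal ((1 - q) * q ^ k) * g k))

theorem geo_zero {q : ℝ} (h0 : 0 < q) (h1 : q < 1) (g : ℕ → ℝ≥0∞) :
    g 0 ≤ ENNReal.ofReal (1 - q)⁻¹ * ∫⁻ k, g k ∂(geoM q) := by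
  rw [lint_geo]
  have h2 : ENNReal.ofReal ((1 - q) * q ^ 0) * g 0 ≤
      ∑' k : ℕ, ENNReal.ofReal ((1 - q) * q ^ k) * g k := ENNReal.le_tsum 0
  have h3 : 0 < 1 - q := by linarith
  calc g 0 = ENNReal.ofReal (1 - q)⁻¹ * (ENNReal.ofReal ((1 - q) * q ^ 0) * g 0) := by
        rw [← mul_assoc, ← ENNReal.ofReal_mul (by positivity), pow_zero, mul_one,
          inv_mul_cancel₀ h3.ne', ENNReal.ofReal_one, one_mul]
    _ ≤ _ := by gcongr

section final

variable {q ρ : ℝ} {s : ℕ} (hD : DSl) (hP : Par q ρ s)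
  (hprob : IsProbabilityMeasure (muH q ρ s n))

/-- `ph` as a function of the own coordinate -/
theorem ph_update (y : V n → ℕ) (v : V n) (k : ℕ) :
    ph q ρ s (Function.update y v k) v = ∑ l ∈ Finset.range (k + s), pp q ρ s y v l := by
  unfold ph
  rw [Function.update_self]
  exact Finset.sum_congr rfl fun l _ => pp_update q ρ s y v k l

include hD in
theorem ph_ge (y : V n → ℕ) (v : V n) (k l : ℕ) (hl : l < k + s) :
    ENNReal.ofReal (pp q ρ s y v l ^ 2) ≤
      ENNReal.ofReal (ph q ρ s (Function.update y v k) v ^ 2) := by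
  apply ENNReal.ofReal_le_ofReal
  rw [ph_update]
  refine pow_le_pow_left₀ (pp_nonneg hD y v l) ?_ 2
  exact Finset.single_le_sum (f := fun l => pp q ρ s y v l) (fun l _ => pp_nonneg hD y v l)
    (Finset.mem_range.2 hl)

include hD hP in
theorem bd_true (v : V n) :
    ∫⁻ y, ENNReal.ofReal (pp q ρ s y v (y v + s) ^ 2) ∂(muY q n) ≤
      ENNReal.ofReal q⁻¹ * ∫⁻ y, ENNReal.ofReal (ph q ρ s y v ^ 2) ∂(muY q n) := by
  have := geo_prob hP.1 hP.2.1
  unfold muY
  rw [resample (geoM q) v (fun y => ENNReal.ofReal (pp q ρ s y v (y v + s) ^ 2)),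
    resample (geoM q) v (fun y => ENNReal.ofReal (ph q ρ s y v ^ 2)),
    ← lintegral_const_mul _ Measurable.of_discrete]
  refine lintegral_mono fun y => ?_
  simp only [Function.update_self, pp_update]
  exact geo_shift hP.1 hP.2.1 _ _ fun k => ph_ge hD y v (k + 1) (k + s) (by omega)

include hD hP in
theorem bd_false (v : V n) :
    ∫⁻ y, ∫⁻ l, ENNReal.ofReal (pp q ρ s y v l ^ 2) ∂(nu q s) ∂(muY q n) ≤
      ENNReal.ofReal (q⁻¹ + (1 - q)⁻¹) *
        ∫⁻ y, ENNReal.ofReal (ph q ρ s y v ^ 2) ∂(muY q n) := by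
  have := geo_prob hP.1 hP.2.1
  have hq0 := hP.1
  have hq1 : 0 < 1 - q := by linarith [hP.2.1]
  unfold muY
  rw [resample (geoM q) v (fun y => ENNReal.ofReal (ph q ρ s y v ^ 2)),
    ← lintegral_const_mul _ Measurable.of_discrete]
  refine lintegral_mono fun y => ?_
  rcases hP.2.2.2.2 with hs | ⟨hs, _⟩
  · have h1 : nu q s = geoM q := by unfold nu; rw [if_pos hs]
    rw [h1]
    refine (geo_shift hP.1 hP.2.1 _ (fun k => ENNReal.ofReal
      (ph q ρ s (Function.update y v k) v ^ 2)) fun k =>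
      ph_ge hD y v (k + 1) k (by omega)).trans ?_
    gcongr
    have : 0 < (1 - q)⁻¹ := by positivity
    linarith
  · have h1 : nu q s = Measure.dirac 0 := by unfold nu; rw [if_neg (by omega)]
    rw [h1, lintegral_dirac]
    refine (ph_ge hD y v 0 0 (by omega)).trans ?_
    refine (geo_zero hP.1 hP.2.1 (fun k => ENNReal.ofReal
      (ph q ρ s (Function.update y v k) v ^ 2))).trans ?_
    gcongr
    have : 0 < q⁻¹ := by positivity
    linarith

include hD hP hprob in
theorem bd_total (Γ : (V n → ℕ) → ℕ → V n) (hΓ : Geod Γ) (v : V n) :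
    ∫⁻ y, ENNReal.ofReal (Pp q ρ s Γ y v ^ 2) ∂(muY q n) ≤
      ENNReal.ofReal (q⁻¹ + (q⁻¹ + (1 - q)⁻¹)) *
        ∫⁻ y, ENNReal.ofReal (ph q ρ s y v ^ 2) ∂(muY q n) := by
  have hq0 := hP.1
  have hq1 : 0 < 1 - q := by linarith [hP.2.1]
  have hr0 := hP.2.2.1
  have hr1 := hP.2.2.2.1
  refine (lintegral_mono fun y => part_c hD hP hprob Γ hΓ y v).trans ?_
  rw [lintegral_add_left Measurable.of_discrete, lintegral_const_mul _ Measurable.of_discrete,
    lintegral_const_mul _ Measurable.of_discrete, ENNReal.ofReal_add (by positivity)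
    (by positivity), add_mul]
  have e1 : ENNReal.ofReal ρ ≤ 1 := ENNReal.ofReal_le_one.2 hr1.le
  have e2 : ENNReal.ofReal (1 - ρ) ≤ 1 := ENNReal.ofReal_le_one.2 (by linarith)
  refine add_le_add ?_ ?_
  · refine (mul_le_mul_left e1 _).trans ?_
    rw [one_mul]
    exact bd_true hD hP v
  · refine (mul_le_mul_left e2 _).trans ?_
    rw [one_mul]
    exact bd_false hD hP v

end final

/-- LP-G4, first part -/
theorem gPath (hL : GLaw) (hD : DSl) : GPath := by
  intro q ρ s hP
  have hq0 := hP.1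
  have hq1 : 0 < 1 - q := by linarith [hP.2.1]
  refine ⟨q⁻¹ + (q⁻¹ + (1 - q)⁻¹), by positivity, fun n Γ hΓ => ?_⟩
  obtain ⟨hY, hH, _, _, hint, _, _⟩ := hL q ρ s hP n
  refine ⟨fun y v hy => part_a hD hP hH Γ hΓ y v hy, fun y v => pp_nonneg hD y v _, ?_⟩
  rw [Finset.mul_sum]
  refine Finset.sum_le_sum fun v _ => ?_
  -- integrability of `ph ^ 2`
  have hph0 : ∀ y : V n → ℕ, 0 ≤ ph q ρ s y v := fun y =>
    Finset.sum_nonneg fun l _ => pp_nonneg hD y v l
  have hphle : ∀ y : V n → ℕ, ph q ρ s y v ≤ ∑ v, (y v : ℝ) + s := by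
    intro y
    have h1 : ph q ρ s y v ≤ ∑ _l ∈ Finset.range (y v + s), (1 : ℝ) :=
      Finset.sum_le_sum fun l _ => pp_le hD hH y v l
    rw [Finset.sum_const, Finset.card_range, nsmul_eq_mul, mul_one] at h1
    push_cast at h1
    have h2 : (y v : ℝ) ≤ ∑ v, (y v : ℝ) :=
      Finset.single_le_sum (f := fun v => (y v : ℝ)) (fun v _ => Nat.cast_nonneg _)
        (Finset.mem_univ v)
    linarith
  have hi : Integrable (fun y : V n → ℕ => (ph q ρ s y v) ^ 2) (muY q n) := by
    have h2 := ((hint 2).add ((hint 1).const_mul (2 * (s : ℝ)))).add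
      (integrable_const (μ := muY q n) ((s : ℝ) ^ 2))
    refine h2.mono' Measurable.of_discrete.aestronglyMeasurable
      (Filter.Eventually.of_forall fun y => ?_)
    rw [Real.norm_eq_abs, abs_of_nonneg (sq_nonneg _)]
    refine (pow_le_pow_left₀ (hph0 y) (hphle y) 2).trans (le_of_eq ?_)
    simp only [Pi.add_apply, pow_one]
    ring
  have h3 := bd_total hD hP hH Γ hΓ v
  have h4 : ∫⁻ y, ENNReal.ofReal (ph q ρ s y v ^ 2) ∂(muY q n) =
      ENNReal.ofReal (∫ y, (ph q ρ s y v) ^ 2 ∂(muY q n)) :=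
    (ofReal_integral_eq_lintegral_ofReal hi (Filter.Eventually.of_forall fun y =>
      sq_nonneg _)).symm
  rw [h4, ← ENNReal.ofReal_mul (by positivity)] at h3
  rw [integral_eq_lintegral_of_nonneg_ae (f := fun y => (Pp q ρ s Γ y v) ^ 2)
    (Filter.Eventually.of_forall fun y => sq_nonneg _)
    Measurable.of_discrete.aestronglyMeasurable]
  have h5 := ENNReal.toReal_mono ENNReal.ofReal_ne_top h3
  rw [ENNReal.toReal_ofReal (mul_nonneg (by positivity) (integral_nonneg fun y => sq_nonneg _))]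
    at h5
  exact h5

/-- LP-G4, second part -/
theorem gPathM (hL : GLaw) : GPathM := by
  intro q ρ s hP n Γ hΓ y
  obtain ⟨_, hH, _⟩ := hL q ρ s hP n
  have hlev : ∀ v : V n, lev v + 1 < 2 * n := by
    intro v
    unfold lev
    have := v.1.2
    have := v.2.2
    omega
  refine ⟨fun v => measureReal_nonneg, fun k hk => ?_, fun v l hl => ?_⟩
  · have h1 : ∑ v, (if lev v = k then Pp q ρ s Γ y v else 0) =
        ∑ v, (muH q ρ s n).real {h | Γ (Wt s y h) k = v} := by
      refine Finset.sum_congr rfl fun v _ => ?_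
      by_cases hv : lev v = k
      · rw [if_pos hv]
        unfold Pp
        rw [hv]
      · rw [if_neg hv]
        have : {h : V n → Bool × ℕ | Γ (Wt s y h) k = v} = ∅ := by
          ext h
          simp only [Set.mem_ofPred_eq, Set.mem_empty_iff_false, iff_false]
          intro hh
          exact hv (by rw [← hh]; exact hΓ.lev _ k hk)
        rw [this]
        simp
    rw [h1, ← measureReal_biUnion_finset]
    · have h2 : (⋃ v ∈ (Finset.univ : Finset (V n)), {h : V n → Bool × ℕ | Γ (Wt s y h) k = v})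
          = Set.univ := by
        ext h
        simp
      rw [h2]
      simp
    · intro v _ v' _ hvv
      rw [Function.onFun, Set.disjoint_left]
      intro h hh hh'
      exact hvv (hh.symm.trans hh')
    · intro v _
      exact MeasurableSet.of_discrete
  · have h1 : ∑ v' : V n, (if lev v' = l ∧
        |((v'.1 : ℕ) : ℤ) - (v.1 : ℕ)| ≤ |(l : ℤ) - lev v| ∧
        |((v'.2 : ℕ) : ℤ) - (v.2 : ℕ)| ≤ |(l : ℤ) - lev v| then Pp q ρ s Γ y v' else 0) =
        ∑ v' ∈ Finset.univ.filter (fun v' : V n => lev v' = l ∧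
        |((v'.1 : ℕ) : ℤ) - (v.1 : ℕ)| ≤ |(l : ℤ) - lev v| ∧
        |((v'.2 : ℕ) : ℤ) - (v.2 : ℕ)| ≤ |(l : ℤ) - lev v|), Pp q ρ s Γ y v' := by
      rw [Finset.sum_filter]
    rw [h1]
    unfold Pp
    refine le_trans (measureReal_mono ?_ (measure_ne_top _ _)) (measureReal_biUnion_finset_le _ _)
    intro h hh
    have hh' : Γ (Wt s y h) (lev v) = v := hh
    have h2 : lev (Γ (Wt s y h) l) = l := hΓ.lev _ l hl
    have hcone : |(((Γ (Wt s y h) l).1 : ℕ) : ℤ) - (v.1 : ℕ)| ≤ |(l : ℤ) - lev v| ∧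
        |(((Γ (Wt s y h) l).2 : ℕ) : ℤ) - (v.2 : ℕ)| ≤ |(l : ℤ) - lev v| := by
      rcases le_total (lev v) l with h3 | h3
      · have h4 := hΓ.mono (Wt s y h) (lev v) l h3 hl
        rw [hh'] at h4
        have h5 : (v.1 : ℕ) ≤ (Γ (Wt s y h) l).1 := h4.1
        have h6 : (v.2 : ℕ) ≤ (Γ (Wt s y h) l).2 := h4.2
        have h7 : ((Γ (Wt s y h) l).1 : ℕ) + ((Γ (Wt s y h) l).2 : ℕ) = l := h2
        have h8 : (v.1 : ℕ) + (v.2 : ℕ) = lev v := rfl
        rw [abs_of_nonneg (by omega), abs_of_nonneg (by omega), abs_of_nonneg (by omega)]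
        constructor <;> omega
      · have h4 := hΓ.mono (Wt s y h) l (lev v) h3 (hlev v)
        rw [hh'] at h4
        have h5 : ((Γ (Wt s y h) l).1 : ℕ) ≤ v.1 := h4.1
        have h6 : ((Γ (Wt s y h) l).2 : ℕ) ≤ v.2 := h4.2
        have h7 : ((Γ (Wt s y h) l).1 : ℕ) + ((Γ (Wt s y h) l).2 : ℕ) = l := h2
        have h8 : (v.1 : ℕ) + (v.2 : ℕ) = lev v := rfl
        rw [abs_of_nonpos (by omega), abs_of_nonpos (by omega), abs_of_nonpos (by omega)]
        constructor <;> omega
    simp only [Set.mem_iUnion]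
    refine ⟨Γ (Wt s y h) l, Finset.mem_filter.2 ⟨Finset.mem_univ _, h2, hcone⟩, ?_⟩
    show Γ (Wt s y h) (lev (Γ (Wt s y h) l)) = Γ (Wt s y h) l
    rw [h2]

end Pool.Agent.W143.LP
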